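import Mathlib

set_option autoImplicit false

namespace Pool.Agent.Results.MP_cf4f28_al.InfinitelyManyIrreducibles

universe u

/-- The associative algebra of 2 by 2 matrices over F. -/
abbrev Mat2 (F : Type u) : Type u := Matrix (Fin 2) (Fin 2) F

/-- A bimodule over the algebra of 2 by 2 matrices over F: a vector space with a bilinear left action
and a bilinear right action, no further axiom. -/
structure Bimodule (F : Type u) [Field F] where
  carrier : Type u
  [grp : AddCommGroup carrier]
  [mod : Module F carrier]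
  left : Mat2 F →ₗ[F] carrier →ₗ[F] carrier
  right : carrier →ₗ[F] Mat2 F →ₗ[F] carrier

attribute [instance] Bimodule.grp Bimodule.mod

namespace Bimodule

variable {F : Type u} [Field F]

/-- Multiplication of the split null extension, whose underlying space is Mat2 F times M. -/
def nullMul (M : Bimodule F) (x y : Mat2 F × M.carrier) : Mat2 F × M.carrier :=
  (x.1 * y.1, M.left x.1 y.2 + M.right x.2 y.1)

/-- The bimodule is right alternative: its split null extension satisfies (xy)y = x(yy). -/
def IsRightAlternative (M : Bimodule F) : Prop :=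
  ∀ x y : Mat2 F × M.carrier, M.nullMul (M.nullMul x y) y = M.nullMul x (M.nullMul y y)

/-- A subspace stable under both actions. -/
def IsSubBimodule (M : Bimodule F) (N : Submodule F M.carrier) : Prop :=
  ∀ (a : Mat2 F), ∀ m ∈ N, M.left a m ∈ N ∧ M.right m a ∈ N

/-- The bimodule is nonzero and its only sub-bimodules are zero and itself. -/
def IsIrreducible (M : Bimodule F) : Prop :=
  Nontrivial M.carrier ∧ ∀ N : Submodule F M.carrier, M.IsSubBimodule N → N = ⊥ ∨ N = ⊤

/-- Isomorphism of bimodules: a linear bijection commuting with both actions. -/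
def Iso (M M' : Bimodule F) : Prop :=
  ∃ φ : M.carrier ≃ₗ[F] M'.carrier,
    (∀ (a : Mat2 F) (m : M.carrier), φ (M.left a m) = M'.left a (φ m)) ∧
    (∀ (m : M.carrier) (a : Mat2 F), φ (M.right m a) = M'.right (φ m) a)

end Bimodule

/-- The finite-dimensional irreducible right alternative bimodules over the 2 by 2 matrices over F. -/
def FinIrr (F : Type u) [Field F] : Type (u + 1) :=
  {M : Bimodule F // FiniteDimensional F M.carrier ∧ M.IsRightAlternative ∧ M.IsIrreducible}

/-- Isomorphism is an equivalence relation on them. -/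
def isoSetoid (F : Type u) [Field F] : Setoid (FinIrr F) where
  r M M' := M.1.Iso M'.1
  iseqv :=
    { refl := fun M => ⟨LinearEquiv.refl F _, fun _ _ => rfl, fun _ _ => rfl⟩
      symm := by
        rintro M M' ⟨φ, h1, h2⟩
        refine ⟨φ.symm, fun a m => ?_, fun m a => ?_⟩
        · rw [LinearEquiv.symm_apply_eq, h1, LinearEquiv.apply_symm_apply]
        · rw [LinearEquiv.symm_apply_eq, h2, LinearEquiv.apply_symm_apply]
      trans := by
        rintro M M' M'' ⟨φ, h1, h2⟩ ⟨ψ, h3, h4⟩
        refine ⟨φ.trans ψ, fun a m => ?_, fun m a => ?_⟩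
        · simp only [LinearEquiv.trans_apply, h1, h3]
        · simp only [LinearEquiv.trans_apply, h2, h4] }

section Construction

variable {F : Type u} [Field F] {K : Type u} [Field K] [Algebra F K]

/-- left action -/
def lfun (c : K) (a : Mat2 F) (m : Mat2 K) : Mat2 K :=
    !![m 0 0 * algebraMap F K (a 0 0) + m 0 1 * algebraMap F K (a 0 1) +
        (m 0 1 - m 1 0) * (algebraMap F K (a 1 1) * c - (c * algebraMap F K (a 0 0) + algebraMap F K (a 0 1))),
       m 0 0 * algebraMap F K (a 1 0) + m 0 1 * algebraMap F K (a 1 1) +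
        (m 0 1 - m 1 0) * (- (c * algebraMap F K (a 1 0)));
       m 1 0 * algebraMap F K (a 0 0) + m 1 1 * algebraMap F K (a 0 1) +
        (m 0 1 - m 1 0) * (- algebraMap F K (a 1 0) * c),
       m 1 0 * algebraMap F K (a 1 0) + m 1 1 * algebraMap F K (a 1 1) +
        (m 0 1 - m 1 0) * (- algebraMap F K (a 1 0))]

/-- right action -/
def rfun (m : Mat2 K) (a : Mat2 F) : Mat2 K :=
    !![algebraMap F K (a 0 0) * m 0 0 + algebraMap F K (a 0 1) * m 1 0,
       algebraMap F K (a 0 0) * m 0 1 + algebraMap F K (a 0 1) * m 1 1;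
       algebraMap F K (a 1 0) * m 0 0 + algebraMap F K (a 1 1) * m 1 0,
       algebraMap F K (a 1 0) * m 0 1 + algebraMap F K (a 1 1) * m 1 1]

noncomputable def lmap (c : K) : Mat2 F →ₗ[F] Mat2 K →ₗ[F] Mat2 K :=
  LinearMap.mk₂ F (lfun c)
    (by intro a b m; ext i j; fin_cases i <;> fin_cases j <;> simp [lfun] <;> ring)
    (by intro r a m; ext i j; fin_cases i <;> fin_cases j <;> simp [lfun] <;> simp only [Algebra.smul_def] <;> ring)
    (by intro a m m'; ext i j; fin_cases i <;> fin_cases j <;> simp [lfun] <;> ring)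
    (by intro r a m; ext i j; fin_cases i <;> fin_cases j <;> simp [lfun] <;> simp only [Algebra.smul_def] <;> ring)

noncomputable def rmap : Mat2 K →ₗ[F] Mat2 F →ₗ[F] Mat2 K :=
  LinearMap.mk₂ F rfun
    (by intro a b m; ext i j; fin_cases i <;> fin_cases j <;> simp [rfun] <;> ring)
    (by intro r a m; ext i j; fin_cases i <;> fin_cases j <;> simp [rfun] <;> simp only [Algebra.smul_def] <;> ring)
    (by intro a m m'; ext i j; fin_cases i <;> fin_cases j <;> simp [rfun] <;> ring)
    (by intro r a m; ext i j; fin_cases i <;> fin_cases j <;> simp [rfun] <;> simp only [Algebra.smul_def] <;> ring)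

/-- the bimodule attached to an element c of a field extension K of F -/
noncomputable def bim (F : Type u) [Field F] {K : Type u} [Field K] [Algebra F K] (c : K) : Bimodule F where
  carrier := Mat2 K
  left := lmap c
  right := rmap

lemma key_right (m : Mat2 K) (b : Mat2 F) : rfun (rfun m b) b = rfun m (b * b) := by
  ext i j
  fin_cases i <;> fin_cases j <;>
    simp [rfun, Matrix.mul_apply, Fin.sum_univ_two] <;> ring

lemma key_left (c : K) (a b : Mat2 F) (m : Mat2 K) :
    lfun c (a * b) m + rfun (lfun c a m) b = lfun c a (lfun c b m + rfun m b) := by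
  ext i j
  fin_cases i <;> fin_cases j <;>
    simp [lfun, rfun, Matrix.mul_apply, Fin.sum_univ_two] <;> ring

lemma bim_rightAlt (c : K) : (bim F c).IsRightAlternative := by
  rintro ⟨a, m⟩ ⟨b, n⟩
  change (a * b * b, lmap c (a * b) n + rmap (lmap c a n + rmap m b) b) =
    (a * (b * b), lmap c a (lmap c b n + rmap n b) + rmap m (b * b))
  have h1 : rmap (lmap c a n + rmap m b) b = rmap (lmap c a n) b + rmap (rmap m b) b := by
    rw [map_add]; rfl
  have h2 : rmap (rmap m b) b = rmap m (b * b) := key_right m b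
  have h3 : lmap c (a * b) n + rmap (lmap c a n) b = lmap c a (lmap c b n + rmap n b) := key_left c a b n
  rw [h1, h2, Matrix.mul_assoc, ← h3, add_assoc]

/-- matrix units times a scalar of K -/
def mu (i j : Fin 2) (x : K) : Mat2 K := Matrix.single i j x

lemma irr_aux (c : K) (hc : Algebra.adjoin F {c} = ⊤) (N : Submodule F (Mat2 K))
    (hl : ∀ (a : Mat2 F), ∀ m ∈ N, lfun c a m ∈ N) (hr : ∀ (a : Mat2 F), ∀ m ∈ N, rfun m a ∈ N)
    (hN : N ≠ ⊥) : N = ⊤ := by
  -- step 1: a nonzero multiple of the first matrix unit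
  have step1 : ∃ x : K, x ≠ 0 ∧ (!![x, 0; 0, 0] : Mat2 K) ∈ N := by
    obtain ⟨m, hm, hm0⟩ := (Submodule.ne_bot_iff N).mp hN
    -- a nonzero first row
    have h1 : ∃ w1 w2 : K, (w1 ≠ 0 ∨ w2 ≠ 0) ∧ (!![w1, w2; 0, 0] : Mat2 K) ∈ N := by
      by_cases h : m 0 0 = 0 ∧ m 0 1 = 0
      · refine ⟨m 1 0, m 1 1, ?_, ?_⟩
        · by_contra hcon
          push Not at hcon
          apply hm0
          ext i j
          fin_cases i <;> fin_cases j <;> simp [h.1, h.2, hcon.1, hcon.2]
        · have := hr !![0, 1; 0, 0] m hm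
          convert this using 1
          ext i j
          fin_cases i <;> fin_cases j <;> simp [rfun]
      · refine ⟨m 0 0, m 0 1, ?_, ?_⟩
        · by_contra hcon
          push Not at hcon
          exact h hcon
        · have := hr !![1, 0; 0, 0] m hm
          convert this using 1
          ext i j
          fin_cases i <;> fin_cases j <;> simp [rfun]
    obtain ⟨w1, w2, hw, hmem⟩ := h1
    by_cases h2 : w2 = 0
    · refine ⟨w1, ?_, ?_⟩
      · rcases hw with h | h
        · exact h
        · exact absurd h2 h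
      · rw [h2] at hmem; exact hmem
    · refine ⟨w2, h2, ?_⟩
      -- move to the second row
      have h3 : (!![0, 0; w1, w2] : Mat2 K) ∈ N := by
        have := hr !![0, 0; 1, 0] _ hmem
        convert this using 1
        ext i j
        fin_cases i <;> fin_cases j <;> simp [rfun]
      have h4 : (!![w1, 0; w2, 0] : Mat2 K) ∈ N := by
        have := hl !![0, 1; 0, 0] _ h3
        convert this using 1
        ext i j
        fin_cases i <;> fin_cases j <;> simp [lfun]
      have := hr !![0, 1; 0, 0] _ h4
      convert this using 1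
      ext i j
      fin_cases i <;> fin_cases j <;> simp [rfun]
  obtain ⟨x, hx, hxN⟩ := step1
  -- the set of y with y E11 in N
  have h12 : ∀ y : K, (!![y, 0; 0, 0] : Mat2 K) ∈ N → (!![0, y; 0, 0] : Mat2 K) ∈ N := by
    intro y hy
    have := hl !![0, 0; 1, 0] _ hy
    convert this using 1
    ext i j
    fin_cases i <;> fin_cases j <;> simp [lfun]
  have hcmul : ∀ y : K, (!![y, 0; 0, 0] : Mat2 K) ∈ N → (!![c * y, 0; 0, 0] : Mat2 K) ∈ N := by
    intro y hy
    have h := hl !![1, 0; 0, 0] _ (h12 y hy)
    have h' := N.neg_mem h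
    convert h' using 1
    ext i j
    fin_cases i <;> fin_cases j <;> simp [lfun, mul_comm]
  have hadd : ∀ y y' : K, (!![y, 0; 0, 0] : Mat2 K) ∈ N → (!![y', 0; 0, 0] : Mat2 K) ∈ N →
      (!![y + y', 0; 0, 0] : Mat2 K) ∈ N := by
    intro y y' hy hy'
    have h := N.add_mem hy hy'
    convert h using 1
    ext i j
    fin_cases i <;> fin_cases j <;> simp
  have hmul : ∀ k : K, ∀ y : K, (!![y, 0; 0, 0] : Mat2 K) ∈ N → (!![k * y, 0; 0, 0] : Mat2 K) ∈ N := by
    intro k
    have hk : k ∈ Algebra.adjoin F {c} := by rw [hc]; exact Algebra.mem_top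
    induction hk using Algebra.adjoin_induction with
    | mem z hz =>
      rw [Set.mem_singleton_iff] at hz
      subst hz
      exact hcmul
    | algebraMap r =>
      intro y hy
      have h := N.smul_mem r hy
      convert h using 1
      ext i j
      fin_cases i <;> fin_cases j <;> simp [Algebra.smul_def]
    | add u v _ _ hu hv =>
      intro y hy
      rw [add_mul]
      exact hadd _ _ (hu y hy) (hv y hy)
    | mul u v _ _ hu hv =>
      intro y hy
      rw [mul_assoc]
      exact hu _ (hv y hy)
  have hall : ∀ y : K, (!![y, 0; 0, 0] : Mat2 K) ∈ N := by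
    intro y
    have := hmul (y * x⁻¹) x hxN
    rwa [mul_assoc, inv_mul_cancel₀ hx, mul_one] at this
  have h21 : ∀ y : K, (!![0, 0; y, 0] : Mat2 K) ∈ N := by
    intro y
    have := hr !![0, 0; 1, 0] _ (hall y)
    convert this using 1
    ext i j
    fin_cases i <;> fin_cases j <;> simp [rfun]
  have h22 : ∀ y : K, (!![0, 0; 0, y] : Mat2 K) ∈ N := by
    intro y
    have := hr !![0, 0; 1, 0] _ (h12 y (hall y))
    convert this using 1
    ext i j
    fin_cases i <;> fin_cases j <;> simp [rfun]
  rw [eq_top_iff]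
  intro m _
  have h := N.add_mem (N.add_mem (hall (m 0 0)) (h12 _ (hall (m 0 1)))) (N.add_mem (h21 (m 1 0)) (h22 (m 1 1)))
  convert h using 1
  ext i j
  fin_cases i <;> fin_cases j <;> simp

lemma bim_irreducible (c : K) (hc : Algebra.adjoin F {c} = ⊤) : (bim F c).IsIrreducible := by
  refine ⟨inferInstanceAs (Nontrivial (Mat2 K)), ?_⟩
  intro N hN
  by_cases h : N = ⊥
  · exact Or.inl h
  · right
    exact irr_aux c hc N (fun a m hm => (hN a m hm).1) (fun a m hm => (hN a m hm).2) h

/-- an isomorphism forces c and c' to have the same annihilating polynomials -/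
lemma iso_aux {K' : Type u} [Field K'] [Algebra F K'] (c : K) (c' : K')
    (h : (bim F c).Iso (bim F c')) (g : Polynomial F) (hg : Polynomial.aeval c g = 0) :
    Polynomial.aeval c' g = 0 := by
  obtain ⟨φ, hl, hr⟩ := h
  change Mat2 K ≃ₗ[F] Mat2 K' at φ
  replace hl : ∀ (a : Mat2 F) (m : Mat2 K), φ (lfun c a m) = lfun c' a (φ m) := hl
  replace hr : ∀ (m : Mat2 K) (a : Mat2 F), φ (rfun m a) = rfun (φ m) a := hr
  -- φ preserves the line of E11
  have h11 : ∀ y : K, φ !![y, 0; 0, 0] = !![(φ !![y, 0; 0, 0]) 0 0, 0; 0, 0] := by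
    intro y
    have e1 : rfun (!![y, 0; 0, 0] : Mat2 K) (!![1, 0; 0, 0] : Mat2 F) = !![y, 0; 0, 0] := by
      ext i j
      fin_cases i <;> fin_cases j <;> simp [rfun]
    have e2 : lfun c (!![1, 0; 0, 0] : Mat2 F) (!![y, 0; 0, 0] : Mat2 K) = !![y, 0; 0, 0] := by
      ext i j
      fin_cases i <;> fin_cases j <;> simp [lfun]
    have f1 := hr !![y, 0; 0, 0] !![1, 0; 0, 0]
    rw [e1] at f1
    have f2 := hl !![1, 0; 0, 0] !![y, 0; 0, 0]
    rw [e2] at f2
    have g10 : (φ !![y, 0; 0, 0]) 1 0 = 0 := by
      have := congrFun (congrFun f1 1) 0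
      simpa [rfun] using this
    have g11 : (φ !![y, 0; 0, 0]) 1 1 = 0 := by
      have := congrFun (congrFun f1 1) 1
      simpa [rfun] using this
    have g01 : (φ !![y, 0; 0, 0]) 0 1 = 0 := by
      have := congrFun (congrFun f2 0) 1
      simpa [lfun] using this
    ext i j
    fin_cases i <;> fin_cases j <;> simp [g10, g11, g01]
  -- T acts as multiplication by c
  have hT : ∀ (L : Type u) [Field L] [Algebra F L] (d y : L),
      lfun d (!![1, 0; 0, 0] : Mat2 F) (lfun d (!![0, 0; 1, 0] : Mat2 F) !![y, 0; 0, 0]) = - !![d * y, 0; 0, 0] := by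
    intro L _ _ d y
    ext i j
    fin_cases i <;> fin_cases j <;> simp [lfun, mul_comm]
  have hmulc : ∀ y : K, (φ !![c * y, 0; 0, 0]) 0 0 = c' * (φ !![y, 0; 0, 0]) 0 0 := by
    intro y
    have h1 := hT K c y
    have h2 := congrArg φ h1
    rw [hl, hl, map_neg, h11 y, hT K' c' _] at h2
    have h3 := congrFun (congrFun h2 0) 0
    simpa using h3.symm
  have hadd : ∀ y y' : K, (φ !![y + y', 0; 0, 0]) 0 0 = (φ !![y, 0; 0, 0]) 0 0 + (φ !![y', 0; 0, 0]) 0 0 := by
    intro y y'
    have : (!![y + y', 0; 0, 0] : Mat2 K) = !![y, 0; 0, 0] + !![y', 0; 0, 0] := by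
      ext i j
      fin_cases i <;> fin_cases j <;> simp
    rw [this, map_add]
    rfl
  have hsm : ∀ (r : F) (y : K), (φ !![algebraMap F K r * y, 0; 0, 0]) 0 0 =
      algebraMap F K' r * (φ !![y, 0; 0, 0]) 0 0 := by
    intro r y
    have : (!![algebraMap F K r * y, 0; 0, 0] : Mat2 K) = r • !![y, 0; 0, 0] := by
      ext i j
      fin_cases i <;> fin_cases j <;> simp [Algebra.smul_def]
    rw [this, map_smul, Matrix.smul_apply, Algebra.smul_def]
  have hpoly : ∀ p : Polynomial F, ∀ y : K, (φ !![Polynomial.aeval c p * y, 0; 0, 0]) 0 0 =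
      Polynomial.aeval c' p * (φ !![y, 0; 0, 0]) 0 0 := by
    intro p
    induction p using Polynomial.induction_on' with
    | add p q hp hq =>
      intro y
      rw [map_add, add_mul, hadd, hp, hq, map_add, add_mul]
    | monomial n r =>
      intro y
      have hpow : ∀ n : ℕ, ∀ y : K, (φ !![c ^ n * y, 0; 0, 0]) 0 0 = c' ^ n * (φ !![y, 0; 0, 0]) 0 0 := by
        intro n
        induction n with
        | zero => intro y; simp
        | succ n ih => intro y; rw [pow_succ', mul_assoc, hmulc, ih, pow_succ', mul_assoc]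
      rw [Polynomial.aeval_monomial, Polynomial.aeval_monomial, mul_assoc, hsm, hpow, mul_assoc]
  have h1 := hpoly g 1
  rw [hg, zero_mul] at h1
  have h0 : (!![0, 0; 0, 0] : Mat2 K) = 0 := by
    ext i j
    fin_cases i <;> fin_cases j <;> rfl
  rw [h0, map_zero] at h1
  have hne : (φ !![1, 0; 0, 0]) 0 0 ≠ 0 := by
    intro hz
    have h2 := h11 1
    rw [hz] at h2
    have h0' : (!![0, 0; 0, 0] : Mat2 K') = 0 := by
      ext i j
      fin_cases i <;> fin_cases j <;> rfl
    rw [h0'] at h2
    have h3 := (LinearEquiv.map_eq_zero_iff φ).mp h2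
    have h4 := congrFun (congrFun h3 0) 0
    simp at h4
  have h5 : Polynomial.aeval c' g * (φ !![1, 0; 0, 0]) 0 0 = 0 := h1.symm
  exact (mul_eq_zero.mp h5).resolve_right hne

end Construction

section Infinite

variable (F : Type u) [Field F]

/-- monic irreducible polynomials -/
def MonIrr : Set (Polynomial F) := {g | g.Monic ∧ Irreducible g}

lemma infinite_monIrr : (MonIrr F).Infinite := by
  intro hfin
  classical
  set P := ∏ g ∈ hfin.toFinset, g with hP
  have hPmonic : P.Monic := Polynomial.monic_prod_of_monic _ _ (fun g hg => (hfin.mem_toFinset.mp hg).1)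
  set Q := Polynomial.X * P + 1 with hQ
  have hdeg : Q.natDegree = P.natDegree + 1 := by
    have h1 : (Polynomial.X * P).natDegree = P.natDegree + 1 := by
      rw [Polynomial.natDegree_X_mul hPmonic.ne_zero]
    rw [hQ, Polynomial.natDegree_add_eq_left_of_natDegree_lt, h1]
    rw [h1]; simp
  have hnu : ¬ IsUnit Q := by
    intro h
    have := Polynomial.natDegree_eq_zero_of_isUnit h
    omega
  have hQ0 : Q ≠ 0 := by
    intro h
    rw [h] at hdeg
    simp at hdeg
  obtain ⟨q, hq, hdvd⟩ := WfDvdMonoid.exists_irreducible_factor hnu hQ0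
  set q' := normalize q with hq'
  have hass : Associated q' q := normalize_associated q
  have hirr : Irreducible q' := hass.symm.irreducible hq
  have hmon : q'.Monic := Polynomial.monic_normalize hq.ne_zero
  have hdvd' : q' ∣ Q := hass.dvd.trans hdvd
  have hmem : q' ∈ hfin.toFinset := hfin.mem_toFinset.mpr ⟨hmon, hirr⟩
  have h2 : q' ∣ P := Finset.dvd_prod_of_mem _ hmem
  have h3 : q' ∣ 1 := by
    have : q' ∣ Polynomial.X * P := h2.mul_left _
    exact (dvd_add_right this).mp hdvd'
  exact hirr.not_isUnit (isUnit_of_dvd_one h3)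

end Infinite

/-- For every field F there are infinitely many isomorphism classes of finite-dimensional irreducible
right alternative bimodules over the algebra of 2 by 2 matrices over F. -/
theorem result (F : Type u) [Field F] : Infinite (Quotient (isoSetoid F)) := by
  have hinf : Infinite (MonIrr F) := (infinite_monIrr F).to_subtype
  have hfact : ∀ g : MonIrr F, Fact (Irreducible g.1) := fun g => ⟨g.2.2⟩
  let f : MonIrr F → FinIrr F := fun g =>
    have := hfact g
    ⟨bim F (AdjoinRoot.root g.1), by
      have : FiniteDimensional F (AdjoinRoot g.1) :=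
        (AdjoinRoot.powerBasis g.2.2.ne_zero).finite
      exact inferInstanceAs (FiniteDimensional F (Mat2 (AdjoinRoot g.1))),
      bim_rightAlt _, bim_irreducible _ AdjoinRoot.adjoinRoot_eq_top⟩
  apply Infinite.of_injective (fun g : MonIrr F => Quotient.mk (isoSetoid F) (f g))
  intro g g' hgg
  have hiso : (f g).1.Iso (f g').1 := Quotient.exact hgg
  have := hfact g
  have := hfact g'
  have h1 : Polynomial.aeval (AdjoinRoot.root g'.1) g.1 = 0 :=
    iso_aux (AdjoinRoot.root g.1) (AdjoinRoot.root g'.1) hiso g.1 (by simp)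
  have h2 : g'.1 ∣ g.1 := by
    rw [AdjoinRoot.aeval_eq] at h1
    exact AdjoinRoot.mk_eq_zero.mp h1
  apply Subtype.ext
  have h3 : Associated g'.1 g.1 := (g'.2.2.dvd_irreducible_iff_associated g.2.2).mp h2
  exact (Polynomial.eq_of_monic_of_associated g'.2.1 g.2.1 h3).symm

end Pool.Agent.Results.MP_cf4f28_al.InfinitelyManyIrreducibles
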